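import Pool.Agent.H537.TG.Fin
import Pool.Graph.R_pool_sql_team_seeded_620a6dc7.Results.MP_dd84fd_nt.BarbanDavenportHalberstam

/-!
# Goldbach partitions in residue classes: irregularities for almost all even numbers

For even `n` consider the Goldbach partitions `n = p + (n - p)` with `p ≤ n / 2` (so `p` is the smaller prime) and
`p ≡ a (mod q)`, where the modulus `q` is close to `n / (log n) ^ B`. All these `p`, apart from `p = a`, exceed
`n / (2 (log n) ^ (B + 1))`, hence `√n < p ≤ n / 2`: they are partitions as in the question. For almost all even `n`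
these partitions are equidistributed in the residue classes, in mean square over all classes and all moduli
`q ≤ n exp (-C (log log n) ^ 2)` (library, `BarbanDavenportHalberstam`). We show that this is not so for `q` close to
`n / (log n) ^ B`, `B > 0` arbitrary, for the sums over the moduli with one residue `a`: for almost all even `n`, up
to `N / (log N) ^ A` exceptions `≤ N`, there is a residue `1 ≤ a ≤ n ^ ε` with too many partitions and one with too
few, by a constant factor, on average over the moduli `Q < q ≤ 2 Q`. For EVERY large even `n` either this is true, or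
the equidistribution fails for a modulus `q ≤ (log n) ^ (B + 1)`.

Proof. There is an `a ≤ n ^ ε` such that `a (n - a)` has no prime factor up to `w = (log n) ^ (B / (K + 1))` and `a` is
divisible by all primes between `w` and `(log n) ^ (B / K)`. If `p = a + q m` and `p`, `n - p` are primes then neither
`q` nor `m` has a prime factor in common with `a (n - a)`, and the sum over `q` of the numbers of the `p ≡ a (mod q)`
is the sum over the cofactors `m ≤ 2 (log n) ^ B` of the numbers of the `p ≡ a (mod m)` in intervals. The inclusion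
and exclusion of the prime factors of `m` stops after `K` steps, and the number of the `m` coprime to these primes
differs from its expected value by a constant factor, in the direction given by the parity of `K`. For the primes
(without the condition on `n - p`) this is the argument of Friedlander and Granville (1989).
-/

set_option autoImplicit false

open Finset Filter

namespace Pool.Agent.Results.MP_33f996_nt.LimitsInClasses

/-- The product of `(1 - ν(p) / p) / (1 - 1 / p) ^ 2` over the primes `p ≤ z`, where `ν(p) = 1` if `p` divides `n` and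
`ν(p) = 2` otherwise. For even `n` it converges to the singular series
`2 ∏_{p > 2} (1 - (p - 1) ^ (-2)) ∏_{p ∣ n, p > 2} (p - 1) / (p - 2)`. -/
noncomputable def partialSing (n z : ℕ) : ℝ :=
  ∏ p ∈ (Icc 1 z).filter Nat.Prime, (1 - (if p ∣ n then 1 else 2) / (p : ℝ)) / (1 - 1 / (p : ℝ)) ^ 2

/-- `S` is the singular series of `n` -/
def IsSing (n : ℕ) (S : ℝ) : Prop := Tendsto (partialSing n) atTop (nhds S)

/-- The residues `r (mod q)` with `r (n - r)` coprime to `q`. -/
def residues (n q : ℕ) : Finset ℕ := (range q).filter (fun r : ℕ => Int.gcd (r * ((n : ℤ) - r)) q = 1)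

/-- The number of the primes `p ≤ n / 2`, `p ≡ a (mod q)`, for which `n - p` is prime. -/
def partitions (n q a : ℕ) : ℕ :=
  ((Icc 1 (n / 2)).filter (fun p => p ≡ a [MOD q] ∧ p.Prime ∧ (n - p).Prime)).card

/-- The expected number `S X / (φ_n(q) (log X) ^ 2)`, `X = ⌊n / 2⌋`, where `φ_n(q)` is the number of the residues `r`
modulo `q` with `r (n - r)` coprime to `q`. -/
noncomputable def expected (n q : ℕ) (S : ℝ) : ℝ :=
  S * ((n / 2 : ℕ) : ℝ) / (residues n q).card / Real.log ((n / 2 : ℕ) : ℝ) ^ 2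

/-- The moduli `Q < q ≤ 2 Q`, `Q = ⌊X / (log X) ^ B⌋`, `X = ⌊n / 2⌋`, for which `a (n - a)` is coprime to `q`. -/
noncomputable def moduli (B : ℝ) (n a : ℕ) : Finset ℕ :=
  (Ioc ⌊((n / 2 : ℕ) : ℝ) / Real.log ((n / 2 : ℕ) : ℝ) ^ B⌋₊
    (2 * ⌊((n / 2 : ℕ) : ℝ) / Real.log ((n / 2 : ℕ) : ℝ) ^ B⌋₊)).filter
    (fun q : ℕ => Int.gcd (a * ((n : ℤ) - a)) q = 1)

/-- There is a residue `1 ≤ a ≤ n ^ ε` for which the number of the partitions with `p ≡ a (mod q)`, summed over the
moduli, is at least `1 + h` times the (positive) expected one, and a residue for which it is at most `1 - h` times the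
(positive) expected one. -/
def Irregular (B ε h : ℝ) (n : ℕ) (S : ℝ) : Prop :=
  (∃ a : ℕ, 1 ≤ a ∧ (a : ℝ) ≤ (n : ℝ) ^ ε ∧ 0 < ∑ q ∈ moduli B n a, expected n q S ∧
    (1 + h) * ∑ q ∈ moduli B n a, expected n q S ≤ ∑ q ∈ moduli B n a, (partitions n q a : ℝ)) ∧
  ∃ a : ℕ, 1 ≤ a ∧ (a : ℝ) ≤ (n : ℝ) ^ ε ∧ 0 < ∑ q ∈ moduli B n a, expected n q S ∧
    ∑ q ∈ moduli B n a, (partitions n q a : ℝ) ≤ (1 - h) * ∑ q ∈ moduli B n a, expected n q S

/-- The sum of `log p * log (n - p)` over the primes `p ≤ y`, `p ≡ a (mod q)`, for which `n - p` is prime. -/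
noncomputable def theta (n q a y : ℕ) : ℝ :=
  ∑ p ∈ (Icc 1 y).filter (fun p => p ≡ a [MOD q] ∧ p.Prime ∧ (n - p).Prime), Real.log p * Real.log ((n - p : ℕ) : ℝ)

/-- Equidistribution for the small moduli: for all `q ≤ (log X) ^ (B + 1)`, `X = ⌊n / 2⌋`, all `a` with `a (n - a)`
coprime to `q` and all `y` from `X / (log X) ^ (B + 1)` to `X` the sum `theta` is `S y / φ_n(q)` up to a relative
error `h`. -/
def SmallModuli (B h : ℝ) (n : ℕ) (S : ℝ) : Prop :=
  ∀ q a y : ℕ, 1 ≤ q → (q : ℝ) ≤ Real.log ((n / 2 : ℕ) : ℝ) ^ (B + 1) → Int.gcd (a * ((n : ℤ) - a)) q = 1 →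
    ((n / 2 : ℕ) : ℝ) / Real.log ((n / 2 : ℕ) : ℝ) ^ (B + 1) ≤ y → y ≤ n / 2 →
    |theta n q a y - S * y / (residues n q).card| ≤ h * (S * y / (residues n q).card)

open Pool.Agent.Results.MP_dd84fd_nt.BarbanDavenportHalberstam (Good)

private theorem good_small (B h c : ℝ) (hB : 0 < B) (hh : 0 < h) (hc : 0 < c) (A A' B' : ℕ)
    (hA' : 2 * ((A : ℝ) + 1 + 2 * (B + 1)) + 2 ≤ A') :
    ∀ᶠ N : ℕ in atTop, ∀ n : ℕ, n ≤ N → (N : ℝ) / Real.log N ^ (A + 1) ≤ n → Even n → Good A' B' c N n →
      ∃ S : ℝ, IsSing n S ∧ c ≤ S ∧ SmallModuli B h n S := by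
  have hlogX : Tendsto (fun X : ℕ => Real.log (X : ℝ)) atTop atTop :=
    Real.tendsto_log_atTop.comp tendsto_natCast_atTop_atTop
  -- the small moduli are in the range
  have t1 : ∀ᶠ L : ℝ in atTop, L ^ (B + 1) ≤ Real.exp (L - B' * Real.log L ^ 2) := by
    have h1 : Tendsto (fun L : ℝ => Real.log L) atTop atTop := Real.tendsto_log_atTop
    have h2 := Real.isLittleO_pow_log_id_atTop (n := 2) |>.bound (c := 1 / (2 * (B' + 1))) (by positivity)
    have h3 := Real.isLittleO_log_id_atTop.bound (c := 1 / (2 * (B + 1))) (by positivity)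
    filter_upwards [h2, h3, eventually_ge_atTop (1 : ℝ)] with L h2 h3 h4
    rw [id, Real.norm_of_nonneg (Real.log_nonneg h4), Real.norm_of_nonneg (by linarith)] at h3
    rw [id, Real.norm_of_nonneg (by positivity), Real.norm_of_nonneg (by linarith)] at h2
    have hL0 : 0 < L := by linarith
    rw [← Real.log_le_iff_le_exp (by positivity), Real.log_rpow hL0]
    have e1 : (B + 1) * Real.log L ≤ L / 2 := by
      calc (B + 1) * Real.log L ≤ (B + 1) * (1 / (2 * (B + 1)) * L) :=
            mul_le_mul_of_nonneg_left h3 (by linarith)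
        _ = L / 2 := by
            field_simp
    have e2 : (B' : ℝ) * Real.log L ^ 2 ≤ L / 2 := by
      have hB'0 : (0 : ℝ) ≤ B' := Nat.cast_nonneg _
      calc (B' : ℝ) * Real.log L ^ 2 ≤ (B' + 1) * (1 / (2 * (B' + 1)) * L) := by
            apply mul_le_mul (by linarith) h2 (by positivity) (by linarith)
        _ = L / 2 := by
            field_simp
    linarith
  filter_upwards [hlogX.eventually t1, hlogX.eventually_ge_atTop (3 / (h * c) + 3), eventually_ge_atTop 20]
    with N h1 h2 h3 n hnN hNn hne hG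
  obtain ⟨S, hS1, hS2, hS3⟩ := hG
  set L := Real.log (N : ℝ) with hL
  have hcS := hS2 hne
  have hp : 0 < 3 / (h * c) := by positivity
  have hL3 : 3 ≤ L := by linarith
  have hL0 : 0 < L := by linarith
  have hN0 : (0 : ℝ) < N := by exact_mod_cast (show 0 < N by omega)
  refine ⟨S, hS1, hcS, ?_⟩
  intro q a y hq hqL hg hy1 hy2
  set X := n / 2 with hX
  have hXN : (X : ℝ) ≤ N := by exact_mod_cast (Nat.div_le_self n 2).trans hnN
  -- `n` is large
  have hn6 : 6 ≤ n := by
    by_contra hc6
    push Not at hc6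
    have e0 : (n : ℝ) ≤ 5 := by exact_mod_cast (show n ≤ 5 by omega)
    have e1 : (N : ℝ) ≤ 5 * L ^ (A + 1) := by
      have := hNn.trans e0
      rwa [div_le_iff₀ (by positivity)] at this
    have hX2 : X ≤ 2 := by omega
    -- the logarithm of `X` is less than one, so `q ≤ 0`
    have hlogX1 : Real.log (X : ℝ) < 1 := by
      rcases Nat.eq_zero_or_pos X with h0 | h0
      · rw [h0]; simp
      · have : Real.log (X : ℝ) ≤ Real.log 2 := Real.log_le_log (by exact_mod_cast h0) (by exact_mod_cast hX2)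
        exact this.trans_lt (Real.log_two_lt_d9.trans (by norm_num))
    have hlogX0 : 0 ≤ Real.log (X : ℝ) := Real.log_natCast_nonneg X
    have : Real.log (X : ℝ) ^ (B + 1) < 1 := Real.rpow_lt_one hlogX0 hlogX1 (by linarith)
    have hq1 : (1 : ℝ) ≤ q := by exact_mod_cast hq
    linarith
  have hX3 : 3 ≤ X := by omega
  have hX0 : (0 : ℝ) < X := by exact_mod_cast (show 0 < X by omega)
  have hlX1 : 1 ≤ Real.log (X : ℝ) := by
    rw [Real.le_log_iff_exp_le hX0]
    have : Real.exp 1 ≤ 3 := (Real.exp_one_lt_d9.trans (by norm_num)).le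
    exact this.trans (by exact_mod_cast hX3)
  have hlXL : Real.log (X : ℝ) ≤ L := Real.log_le_log hX0 hXN
  have hnX : (n : ℝ) ≤ 3 * X := by exact_mod_cast (show n ≤ 3 * X by omega)
  set Z : ℝ := L ^ (B + 1) with hZ
  have hZ0 : 0 < Z := by positivity
  have hlXZ : Real.log (X : ℝ) ^ (B + 1) ≤ Z := Real.rpow_le_rpow (by linarith) hlXL (by linarith)
  have hlXZ0 : 0 < Real.log (X : ℝ) ^ (B + 1) := by positivity
  -- the size of the main term
  have hy0 : (X : ℝ) / Z ≤ y := (div_le_div_of_nonneg_left hX0.le hlXZ0 hlXZ).trans hy1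
  have hr0 : 0 < (residues n q).card := Pool.Agent.H537.TG.res_pos hne hq
  have hr1 : (residues n q).card ≤ q := by
    unfold residues
    exact (card_filter_le _ _).trans (card_range q).le
  have hr0' : (0 : ℝ) < (residues n q).card := by exact_mod_cast hr0
  have hr2 : ((residues n q).card : ℝ) ≤ Z := by
    have : ((residues n q).card : ℝ) ≤ q := by exact_mod_cast hr1
    linarith
  have hmain : c * (X / Z) / Z ≤ S * y / (residues n q).card := by
    apply div_le_div₀
    · have : (0 : ℝ) ≤ y := Nat.cast_nonneg _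
      have : 0 < S := by linarith
      positivity
    · apply mul_le_mul hcS hy0 (by positivity) (by linarith)
    · exact hr0'
    · exact hr2
  -- the error
  have hQN : ((⌊Z⌋₊ : ℕ) : ℝ) ≤ N * Real.exp (-(B' * Real.log (Real.log N) ^ 2)) := by
    refine (Nat.floor_le hZ0.le).trans ?_
    refine h1.trans (le_of_eq ?_)
    have e1 : (N : ℝ) = Real.exp L := by rw [hL, Real.exp_log hN0]
    rw [sub_eq_add_neg, Real.exp_add, ← e1]
  have hsum := hS3 ⌊Z⌋₊ hQN (fun _ _ => y) (fun _ _ => by omega)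
  have hqZ : q ≤ ⌊Z⌋₊ := Nat.le_floor (hqL.trans hlXZ)
  set r := a % q with hr
  have hqpos : 0 < q := hq
  have hrmem : r ∈ residues n q := by
    unfold residues
    rw [mem_filter, mem_range]
    refine ⟨Nat.mod_lt _ hqpos, ?_⟩
    rw [Pool.Agent.H537.TG.gcd_iff] at hg ⊢
    intro p hp hpq hV
    exact hg p hp hpq ((Pool.Agent.H537.TG.V_per n p a r hp
      ((Nat.mod_modEq a q).symm.of_dvd hpq)).mpr hV)
  have hth : theta n q a y = Pool.Agent.Results.MP_dd84fd_nt.BarbanDavenportHalberstam.goldbach n q r y := by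
    unfold theta Pool.Agent.Results.MP_dd84fd_nt.BarbanDavenportHalberstam.goldbach
    congr 1
    apply filter_congr
    intro p _
    have h5 : a ≡ r [MOD q] := (Nat.mod_modEq a q).symm
    exact and_congr_left' ⟨fun h => h.trans h5, fun h => h.trans h5.symm⟩
  have hone : (theta n q a y - S * y / (residues n q).card) ^ 2 ≤ (N : ℝ) ^ 2 / L ^ A' := by
    refine le_trans ?_ hsum
    rw [hth]
    refine le_trans ?_ (single_le_sum (f := fun q => ∑ r ∈
      Pool.Agent.Results.MP_dd84fd_nt.BarbanDavenportHalberstam.residues n q,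
      (Pool.Agent.Results.MP_dd84fd_nt.BarbanDavenportHalberstam.goldbach n q r y - S * y /
        (Pool.Agent.Results.MP_dd84fd_nt.BarbanDavenportHalberstam.residues n q).card) ^ 2)
      (fun q _ => sum_nonneg fun r _ => sq_nonneg _) (mem_Icc.mpr ⟨hq, hqZ⟩))
    exact single_le_sum (f := fun r =>
      (Pool.Agent.Results.MP_dd84fd_nt.BarbanDavenportHalberstam.goldbach n q r y - S * y /
        (Pool.Agent.Results.MP_dd84fd_nt.BarbanDavenportHalberstam.residues n q).card) ^ 2)
      (fun r _ => sq_nonneg _) hrmem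
  -- comparison
  set M := S * y / ((residues n q).card : ℝ) with hM
  have hM0 : 0 ≤ M := le_trans (by positivity) hmain
  have hM1 : c / 3 * (N / (L ^ (A + 1) * Z ^ 2)) ≤ M := by
    refine le_trans ?_ hmain
    have e1 : (N : ℝ) / L ^ (A + 1) ≤ 3 * X := hNn.trans hnX
    have e2 : c / 3 * (N / (L ^ (A + 1) * Z ^ 2)) = c / 3 * ((N / L ^ (A + 1)) / Z ^ 2) := by
      rw [div_div]
    rw [e2]
    calc c / 3 * ((N / L ^ (A + 1)) / Z ^ 2) ≤ c / 3 * ((3 * X) / Z ^ 2) := by
          apply mul_le_mul_of_nonneg_left _ (by positivity)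
          exact div_le_div_of_nonneg_right e1 (by positivity)
      _ = c * (X / Z) / Z := by
          field_simp
  have hfin : (N : ℝ) ^ 2 / L ^ A' ≤ (h * M) ^ 2 := by
    have e1 : (h * (c / 3 * (N / (L ^ (A + 1) * Z ^ 2)))) ^ 2 ≤ (h * M) ^ 2 := by
      apply pow_le_pow_left₀ (by positivity)
      exact mul_le_mul_of_nonneg_left hM1 hh.le
    refine le_trans ?_ e1
    have e2 : (h * (c / 3 * (N / (L ^ (A + 1) * Z ^ 2)))) ^ 2 =
        (h * c / 3) ^ 2 * (N : ℝ) ^ 2 / (L ^ (A + 1) * Z ^ 2) ^ 2 := by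
      field_simp
    rw [e2, div_le_div_iff₀ (by positivity) (by positivity)]
    have e3 : (L ^ (A + 1) * Z ^ 2) ^ 2 * L ^ 2 ≤ L ^ A' := by
      have e4 : (L ^ (A + 1) * Z ^ 2) ^ 2 * L ^ 2 = L ^ (2 * ((A : ℝ) + 1 + 2 * (B + 1)) + 2) := by
        have z1 : Z ^ 2 = L ^ (2 * (B + 1)) := by
          rw [hZ, ← Real.rpow_natCast, ← Real.rpow_mul hL0.le]
          congr 1
          push_cast
          ring
        have z2 : L ^ (A + 1) = L ^ ((A : ℝ) + 1) := by
          rw [← Real.rpow_natCast]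
          push_cast
          rfl
        rw [z1, z2, ← Real.rpow_add hL0, ← Real.rpow_natCast, ← Real.rpow_mul hL0.le, ← Real.rpow_natCast,
          ← Real.rpow_add hL0]
        congr 1
        push_cast
        ring
      rw [e4, ← Real.rpow_natCast L A']
      exact Real.rpow_le_rpow_of_exponent_le (by linarith) hA'
    have e5 : 1 ≤ (h * c / 3) ^ 2 * L ^ 2 := by
      have e6 : 1 ≤ h * c / 3 * L := by
        have : 3 / (h * c) ≤ L := by linarith
        rw [div_le_iff₀ (by positivity)] at this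
        linarith
      calc (1 : ℝ) ≤ (h * c / 3 * L) ^ 2 := one_le_pow₀ e6
        _ = _ := by ring
    have e7 : 0 ≤ (L ^ (A + 1) * Z ^ 2) ^ 2 := by positivity
    calc (N : ℝ) ^ 2 * (L ^ (A + 1) * Z ^ 2) ^ 2 ≤ (N : ℝ) ^ 2 * ((h * c / 3) ^ 2 * ((L ^ (A + 1) * Z ^ 2) ^ 2 * L ^ 2)) := by
          apply mul_le_mul_of_nonneg_left _ (by positivity)
          calc (L ^ (A + 1) * Z ^ 2) ^ 2 = (L ^ (A + 1) * Z ^ 2) ^ 2 * 1 := by ring
            _ ≤ (L ^ (A + 1) * Z ^ 2) ^ 2 * ((h * c / 3) ^ 2 * L ^ 2) := mul_le_mul_of_nonneg_left e5 e7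
            _ = _ := by ring
      _ ≤ (N : ℝ) ^ 2 * ((h * c / 3) ^ 2 * L ^ A') := by
          apply mul_le_mul_of_nonneg_left _ (by positivity)
          exact mul_le_mul_of_nonneg_left e3 (by positivity)
      _ = _ := by ring
  exact abs_le_of_sq_le_sq (hone.trans hfin) (mul_nonneg hh.le hM0)

/-- **Goldbach partitions in residue classes.** Let `B, ε > 0`. There is `h > 0` such that (1) for all large even `n`,
with `S > 0` the singular series of `n`, EITHER the equidistribution fails for a small modulus OR `n` is irregular; and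
(2) unconditionally, for all `A` and all large `N`, all even `n ≤ N`, except at most `N / (log N) ^ A` of them, are
irregular. -/
theorem result (B ε : ℝ) (hB : 0 < B) (hε : 0 < ε) :
    ∃ h : ℝ, 0 < h ∧
      (∀ᶠ n : ℕ in atTop, Even n → ∀ S : ℝ, 0 < S → IsSing n S → ¬ SmallModuli B h n S ∨ Irregular B ε h n S) ∧
      ∀ A : ℕ, ∀ᶠ N : ℕ in atTop,
        (({n : ℕ | n ≤ N ∧ Even n ∧ ¬ ∃ S : ℝ, 0 < S ∧ IsSing n S ∧ Irregular B ε h n S}.ncard : ℕ) : ℝ) ≤
          N / Real.log N ^ A := by
  classical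
  obtain ⟨h, hh, X₀, hmain⟩ := Pool.Agent.H537.TG.main B ε hB hε
  refine ⟨h, hh, ?_, fun A => ?_⟩
  · filter_upwards [eventually_ge_atTop X₀] with n hn hne S hS _
    by_cases hsm : SmallModuli B h n S
    · right
      exact hmain n hn hne S hS hsm
    · left
      exact hsm
  · obtain ⟨c, hc, hbdh⟩ := Pool.Agent.Results.MP_dd84fd_nt.BarbanDavenportHalberstam.result
    obtain ⟨A', hA'⟩ : ∃ A' : ℕ, 2 * ((A : ℝ) + 1 + 2 * (B + 1)) + 2 ≤ A' := exists_nat_ge _
    obtain ⟨B', N₀, hN₀⟩ := hbdh A'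
    have hAA' : A + 1 ≤ A' := by
      have : (A : ℝ) + 1 ≤ A' := by linarith [Nat.cast_nonneg (α := ℝ) A]
      exact_mod_cast this
    have hlogX : Tendsto (fun X : ℕ => Real.log (X : ℝ)) atTop atTop :=
      Real.tendsto_log_atTop.comp tendsto_natCast_atTop_atTop
    have t1 : ∀ᶠ L : ℝ in atTop, ((X₀ : ℝ) + 1) * L ^ (A + 1) ≤ Real.exp L := by
      have h1 := (Real.tendsto_pow_mul_exp_neg_atTop_nhds_zero (A + 1)).eventually
        (eventually_le_nhds (show (0 : ℝ) < 1 / ((X₀ : ℝ) + 1) by positivity))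
      filter_upwards [h1] with L h1
      rw [Real.exp_neg, ← div_eq_mul_inv, div_le_div_iff₀ (Real.exp_pos _) (by positivity)] at h1
      linarith
    filter_upwards [good_small B h c hB hh hc A A' B' hA', eventually_ge_atTop N₀, eventually_ge_atTop 20,
      hlogX.eventually_ge_atTop 4, hlogX.eventually t1] with N g1 g2 g3 g4 g5
    set L := Real.log (N : ℝ) with hL
    have hN0 : (0 : ℝ) < N := by exact_mod_cast (show 0 < N by omega)
    have hL0 : 0 < L := by linarith
    set T := ⌊(N : ℝ) / L ^ (A + 1)⌋₊ with hT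
    have hTN : (T : ℝ) ≤ N / L ^ (A + 1) := Nat.floor_le (by positivity)
    have hexpL : Real.exp L = N := by rw [hL, Real.exp_log hN0]
    rw [hexpL] at g5
    have hX₀ : (X₀ : ℝ) + 1 ≤ N / L ^ (A + 1) := by
      rw [le_div_iff₀ (by positivity)]
      exact g5
    have hsub : {n : ℕ | n ≤ N ∧ Even n ∧ ¬ ∃ S : ℝ, 0 < S ∧ IsSing n S ∧ Irregular B ε h n S} ⊆
        (((Icc 1 N).filter (fun n => ¬ Good A' B' c N n)) ∪ range (T + 1) : Finset ℕ) := by
      rintro n ⟨hn1, hn2, hn3⟩
      rw [Finset.mem_coe, mem_union, mem_range]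
      by_contra hcon
      push Not at hcon
      obtain ⟨hc1, hc2⟩ := hcon
      have hNn : (N : ℝ) / L ^ (A + 1) ≤ n := by
        have e1 : (N : ℝ) / L ^ (A + 1) < T + 1 := Nat.lt_floor_add_one _
        have e2 : ((T + 1 : ℕ) : ℝ) ≤ n := by exact_mod_cast hc2
        push_cast at e2
        linarith
      have hgood : Good A' B' c N n := by
        by_contra hb
        exact hc1 (mem_filter.mpr ⟨mem_Icc.mpr ⟨by omega, hn1⟩, hb⟩)
      obtain ⟨S, hS1, hS2, hS3⟩ := g1 n hn1 hNn hn2 hgood
      apply hn3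
      refine ⟨S, by linarith, hS1, ?_⟩
      have hnX : X₀ ≤ n := by
        have : (X₀ : ℝ) ≤ n := by linarith
        exact_mod_cast this
      exact hmain n hnX hn2 S (by linarith) hS3
    have hcard : ({n : ℕ | n ≤ N ∧ Even n ∧ ¬ ∃ S : ℝ, 0 < S ∧ IsSing n S ∧ Irregular B ε h n S}.ncard : ℝ) ≤
        (((Icc 1 N).filter (fun n => ¬ Good A' B' c N n)).card : ℝ) + (T + 1) := by
      have e1 := Set.ncard_le_ncard hsub (Finset.finite_toSet _)
      rw [Set.ncard_coe_finset] at e1
      have e2 := e1.trans (card_union_le _ _)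
      rw [card_range] at e2
      exact_mod_cast e2
    refine hcard.trans ?_
    have e1 := hN₀ N g2
    have hL1 : (1 : ℝ) ≤ L := by linarith
    have e2 : (N : ℝ) / L ^ A' ≤ N / L ^ (A + 1) :=
      div_le_div_of_nonneg_left hN0.le (by positivity) (pow_le_pow_right₀ hL1 hAA')
    have e3 : (1 : ℝ) ≤ N / L ^ (A + 1) := by
      have : (0 : ℝ) ≤ X₀ := Nat.cast_nonneg _
      linarith
    have e4 : (N : ℝ) / L ^ A = L * (N / L ^ (A + 1)) := by
      rw [pow_succ]
      field_simp
    rw [e4]
    have e5 : 0 ≤ (N : ℝ) / L ^ (A + 1) := by positivity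
    nlinarith

end Pool.Agent.Results.MP_33f996_nt.LimitsInClasses
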