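import Pool.Agent.H566.NLMain
import Pool.Agent.H566.PolyMain
import Pool.Agent.H566.BohrLin
import Pool.Graph.R_seed8.TH935.GF3

/-!
# Goldbach partitions `2n = p + q` with `√(2n) < p < n`, for almost all even `N = 2n` for which a real polynomial `f(N)` of
# degree `d ≥ 2` is in an arc of length `N ^ (-θ)` modulo one, `θ < 2 ^ (1 - d)`

Let `f` be a real polynomial of degree `d ≥ 2` with leading coefficient `α`. If `α` is not too close to fractions with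
small denominators, then almost all even integers `N ≤ X` with `‖f(N) - β‖ ≤ δ` have the number of partitions
`N = p + q`, `√N < p < N / 2`, which Hardy and Littlewood predict, and so have all long windows for `p`; this is
uniform in `f`, `β` and in the width `δ ≥ X ^ (ρ - 2 ^ (1 - d))`.

* For `δ = X ^ (-θ)`, `θ < 2 ^ (1 - d)`, it holds for all large `X` if `‖α q‖ ≥ c q ^ (-τ)` for some `c > 0` and
  `τ < d - 1 + θ` (for `d ≥ 3` this includes all `τ ≤ 2`, and for `d = 2` almost all `α`, and all badly approximable and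
  all irrational algebraic ones).
* For EVERY irrational `α` it holds for arbitrarily large `X`. So there are infinitely many even `N` with
  `‖f(N) - β‖ < N ^ (-θ)` and with the conjectured number of partitions.

Definitions from the starting files (in `Pool.Agent.H560R3.GB`): `C₂ = ∏_{p > 2} (1 - 1 / (p - 1) ^ 2)`;
`sing n = 2 C₂ ∏_{p ∣ n, p > 2} (p - 1) / (p - 2)`.

Proof. Weyl's inequality on average over the multiples `k f`, `k ≤ K`: after `d - 1` differencing steps the products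
of `k` and of the differences are collected, with the divisor bound, into one variable `m ≤ K X ^ (d - 1)`. This gives
`∑_{k ≤ K} |∑_{n ≤ X} e(k f(n) + t n)| ≤ X ^ (1 - ρ / 2)` for all real `t`, `K` about `4 / δ`. Such sequences are treated in
`Pool.Agent.H566.nonlinear_even` (trigonometric minorants and majorants of the arc and the additive energy).
-/

set_option autoImplicit false

namespace Pool.Agent.Results.MP_33f996_nt.PolynomialTargets

open Finset Polynomial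
open Pool.Agent.H560R3.GB (sing C₂)

/-- The distance of a real number to the nearest integer. -/
noncomputable def distInt (x : ℝ) : ℝ := |x - round x|

/-- The number of the primes `p` with `√N < p < N / 2` for which `N - p` is prime. -/
def partitions (N : ℕ) : ℕ := ((range N).filter (fun p => p.Prime ∧ (N - p).Prime ∧ N < p ^ 2 ∧ 2 * p < N)).card

/-- (1) The number of primes `p`, `√N < p < N / 2`, with `N - p` prime is `𝔖(N) N / (2 (log N)²)` up to a relative error of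
at most `η`; (2) the same for the primes `p` in any window `(y₁, y₂]`, `y₂ ≤ N`, of length at least `N / (log N) ^ W`, with
the prediction `𝔖(N) (y₂ - y₁) / (log N)²`. -/
def Good (η : ℝ) (W N : ℕ) : Prop :=
  |(partitions N : ℝ) - sing N * N / (2 * Real.log N ^ 2)| ≤ η * (sing N * N / (2 * Real.log N ^ 2)) ∧
  ∀ y₁ y₂ : ℕ, y₁ < y₂ → y₂ ≤ N → (N : ℝ) / Real.log N ^ W ≤ (y₂ : ℝ) - y₁ →
    |(((Ioc y₁ y₂).filter (fun p => p.Prime ∧ (N - p).Prime)).card : ℝ) -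
      sing N * ((y₂ : ℝ) - y₁) / Real.log N ^ 2| ≤ η * (sing N * ((y₂ : ℝ) - y₁) / Real.log N ^ 2)

open Classical in
/-- The even integers `0 < n ≤ X` with `‖f(n) - β‖ ≤ δ`. -/
noncomputable def target (X : ℕ) (f : ℝ[X]) (β δ : ℝ) : Finset ℕ :=
  (Icc 1 X).filter (fun n => 2 ∣ n ∧ distInt (f.eval (n : ℝ) - β) ≤ δ)

open Classical in
/-- There are at least `δ X / 51` even `n ≤ X` with `‖f(n) - β‖ ≤ δ`, and all but a proportion `1 / (log X) ^ U` of them
are good. -/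
def AlmostAllGood (η : ℝ) (W U X : ℕ) (f : ℝ[X]) (β δ : ℝ) : Prop :=
  δ * X / 51 ≤ ((target X f β δ).card : ℝ) ∧
    (((target X f β δ).filter (fun n => ¬ Good η W n)).card : ℝ) ≤ ((target X f β δ).card : ℝ) / Real.log X ^ U

theorem C₂_nonneg : 0 ≤ C₂ := by
  unfold Pool.Agent.H560R3.GB.C₂
  apply Real.iInf_nonneg
  intro z
  apply prod_nonneg
  intro p hp
  rw [mem_filter, mem_Icc] at hp
  exact (Pool.Agent.TH935.GF.fac_pos p hp.1.1).le

theorem cnt_partitions (N : ℕ) (hN : 2 ∣ N) (h4 : 4 ≤ N) :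
    Pool.Agent.W93.PG.cnt N (Nat.sqrt N) (N / 2 - 1) = partitions N := by
  unfold Pool.Agent.W93.PG.cnt partitions
  congr 1
  ext p
  rw [mem_filter, mem_filter, mem_Ioc, mem_range, Nat.sqrt_lt']
  constructor
  · rintro ⟨⟨h1, h2⟩, h3, h4⟩
    exact ⟨by omega, h3, h4, h1, by omega⟩
  · rintro ⟨h1, h2, h3, h5, h6⟩
    exact ⟨⟨h5, by omega⟩, h2, h3⟩

theorem sing_nonneg (N : ℕ) (hN : 2 ∣ N) (h3 : 3 ≤ N) : 0 ≤ sing N := by
  obtain ⟨s1, -⟩ := Pool.Agent.TH935.GF.sing_tot N (by omega) hN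
  have ht : (0 : ℝ) < N.totient := by exact_mod_cast Nat.totient_pos.2 (by omega)
  have hC := C₂_nonneg
  exact le_trans (mul_nonneg hC (by positivity)) s1

theorem good_of_win (η : ℝ) (hη : 0 < η) (W : ℕ) : ∃ N₀ : ℕ, ∀ N : ℕ, N₀ ≤ N → 2 ∣ N →
    Pool.Agent.W93.PG.WinP (η / 2) (W + 1) N → Good η W N := by
  obtain ⟨M, hM⟩ := exists_nat_gt (8 / η)
  refine ⟨400 * (M + 1) ^ 2, fun N hN h2 hw => ?_⟩
  have hM0 : (0 : ℝ) < M := lt_trans (by positivity) hM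
  have hM1 : 1 ≤ M := by exact_mod_cast hM0
  have hN400 : 400 ≤ N := by nlinarith
  have hNr : (400 : ℝ) ≤ N := by exact_mod_cast hN400
  have hN0 : (0 : ℝ) < N := by linarith
  have hlog : 3 ≤ Real.log N := by
    rw [Real.le_log_iff_exp_le hN0]
    have := Real.exp_one_lt_d9
    have e3 : Real.exp 3 = Real.exp 1 ^ 3 := by rw [← Real.exp_nat_mul]; norm_num
    rw [e3]
    calc Real.exp 1 ^ 3 ≤ (2.7182818286 : ℝ) ^ 3 := by gcongr
      _ ≤ 400 := by norm_num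
      _ ≤ N := hNr
  have hs := sing_nonneg N h2 (by omega)
  have hs2 : Nat.sqrt N * Nat.sqrt N ≤ N := Nat.sqrt_le N
  -- the square root is small
  have hsq : 20 * (M + 1) ≤ Nat.sqrt N + 1 ∧ (Nat.sqrt N) * (20 * (M + 1)) ≤ N := by
    have h1 : 20 * (M + 1) ≤ Nat.sqrt N := by
      rw [Nat.le_sqrt]
      calc 20 * (M + 1) * (20 * (M + 1)) = 400 * (M + 1) ^ 2 := by ring
        _ ≤ N := hN
    exact ⟨by omega, le_trans (Nat.mul_le_mul_left _ h1) hs2⟩
  have hsqr : (Nat.sqrt N : ℝ) * (20 * (M + 1)) ≤ N := by exact_mod_cast hsq.2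
  have hM1r : (1 : ℝ) ≤ M := by exact_mod_cast hM1
  have hsq40 : (Nat.sqrt N : ℝ) ≤ N / 40 := by
    have h0 : (0 : ℝ) ≤ Nat.sqrt N := Nat.cast_nonneg _
    have : (Nat.sqrt N : ℝ) * 40 ≤ (Nat.sqrt N : ℝ) * (20 * (M + 1)) := by
      apply mul_le_mul_of_nonneg_left _ h0
      linarith
    linarith
  have hcast : ((N / 2 - 1 : ℕ) : ℝ) = (N : ℝ) / 2 - 1 := by
    obtain ⟨k, hk⟩ := h2
    have e1 : N / 2 - 1 = k - 1 := by omega
    have e2 : 1 ≤ k := by omega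
    rw [e1, Nat.cast_sub e2, hk]
    push_cast
    ring
  have hlt : Nat.sqrt N < N / 2 - 1 := by
    have : (Nat.sqrt N : ℝ) < ((N / 2 - 1 : ℕ) : ℝ) := by rw [hcast]; linarith
    exact_mod_cast this
  constructor
  · have hL : (N : ℝ) / Real.log N ^ (W + 1) ≤ ((N / 2 - 1 : ℕ) : ℝ) - (Nat.sqrt N : ℝ) := by
      have h1 : (3 : ℝ) ≤ Real.log N ^ (W + 1) := by
        calc (3 : ℝ) ≤ Real.log N := hlog
          _ = Real.log N ^ 1 := (pow_one _).symm
          _ ≤ _ := pow_le_pow_right₀ (by linarith) (by omega)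
      have h3 : (N : ℝ) / Real.log N ^ (W + 1) ≤ N / 3 := div_le_div_of_nonneg_left hN0.le (by norm_num) h1
      rw [hcast]
      linarith
    have h1 := hw (Nat.sqrt N) (N / 2 - 1) hlt (by omega) hL
    rw [cnt_partitions N h2 (by omega), hcast] at h1
    have hl2 : 0 < Real.log N ^ 2 := by positivity
    obtain ⟨R, hR⟩ : ∃ R, R = sing N / Real.log N ^ 2 := ⟨_, rfl⟩
    have hR0 : 0 ≤ R := by rw [hR]; positivity
    have e1 : sing N * ((N : ℝ) / 2 - 1 - (Nat.sqrt N : ℝ)) / Real.log N ^ 2 = R * ((N : ℝ) / 2 - 1 - (Nat.sqrt N : ℝ)) := by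
      rw [hR]; ring
    have e2 : sing N * N / (2 * Real.log N ^ 2) = R * (N / 2) := by
      rw [hR]; ring
    rw [e1] at h1
    rw [e2]
    have hD : 1 + (Nat.sqrt N : ℝ) ≤ η / 2 * (N / 2) := by
      have h3 : 8 < η * M := by
        rw [div_lt_iff₀ hη] at hM
        linarith
      have h0 : (1 : ℝ) ≤ Nat.sqrt N := by
        have : 1 ≤ Nat.sqrt N := by omega
        exact_mod_cast this
      have h4 : (Nat.sqrt N : ℝ) * (20 * M) ≤ N := by nlinarith
      have h5 : (Nat.sqrt N : ℝ) * (20 * 8) ≤ η * N := by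
        calc (Nat.sqrt N : ℝ) * (20 * 8) ≤ (Nat.sqrt N : ℝ) * (20 * (η * M)) := by
              apply mul_le_mul_of_nonneg_left _ (by linarith)
              linarith
          _ = η * ((Nat.sqrt N : ℝ) * (20 * M)) := by ring
          _ ≤ η * N := mul_le_mul_of_nonneg_left h4 hη.le
      linarith
    have hlow : 0 ≤ R * ((N : ℝ) / 2 - 1 - (Nat.sqrt N : ℝ)) := mul_nonneg hR0 (by linarith)
    have h6 : R * (1 + (Nat.sqrt N : ℝ)) ≤ R * (η / 2 * (N / 2)) := mul_le_mul_of_nonneg_left hD hR0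
    have h7 : η / 2 * (R * ((N : ℝ) / 2 - 1 - (Nat.sqrt N : ℝ))) ≤ η / 2 * (R * (N / 2)) := by
      apply mul_le_mul_of_nonneg_left _ (by linarith)
      apply mul_le_mul_of_nonneg_left _ hR0
      have : (0 : ℝ) ≤ Nat.sqrt N := Nat.cast_nonneg _
      linarith
    rw [abs_le] at h1 ⊢
    obtain ⟨a1, a2⟩ := h1
    have e3 : R * ((N : ℝ) / 2 - 1 - (Nat.sqrt N : ℝ)) = R * (N / 2) - R * (1 + (Nat.sqrt N : ℝ)) := by ring
    have e4 : R * (η / 2 * (N / 2)) = η / 2 * (R * (N / 2)) := by ring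
    have e5 : η * (R * (N / 2)) = η / 2 * (R * (N / 2)) + η / 2 * (R * (N / 2)) := by ring
    have h8 : 0 ≤ R * (1 + (Nat.sqrt N : ℝ)) := mul_nonneg hR0 (by positivity)
    constructor <;> linarith
  · intro y₁ y₂ hy1 hy2 hy3
    have h1 : (N : ℝ) / Real.log N ^ (W + 1) ≤ (y₂ : ℝ) - y₁ := by
      refine le_trans ?_ hy3
      apply div_le_div_of_nonneg_left hN0.le (by positivity)
      exact pow_le_pow_right₀ (by linarith) (by omega)
    have h3 := hw y₁ y₂ hy1 hy2 h1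
    refine le_trans h3 ?_
    have hd : (0 : ℝ) < (y₂ : ℝ) - y₁ := by
      have : (y₁ : ℝ) < y₂ := by exact_mod_cast hy1
      linarith
    have h4 : 0 ≤ sing N * ((y₂ : ℝ) - y₁) / Real.log N ^ 2 := by positivity
    apply mul_le_mul_of_nonneg_right _ h4
    linarith

/-- (1) A uniform theorem for all real polynomials of degree `d`. (2) Leading coefficients of finite type.
(3) All irrational leading coefficients, for arbitrarily large `X`. (4) Values at even integers with many Goldbach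
partitions. -/
theorem result (d : ℕ) (hd : 2 ≤ d) (η : ℝ) (hη : 0 < η) (W U : ℕ) :
    (∀ ρ : ℝ, 0 < ρ → ∃ X₀ : ℕ, ∀ X : ℕ, X₀ ≤ X → ∀ f : ℝ[X], f.natDegree = d → ∀ β δ : ℝ,
      (X : ℝ) ^ (ρ - 1 / (2 : ℝ) ^ (d - 1)) ≤ δ → δ ≤ 1 / 6 →
      (∀ q : ℕ, 1 ≤ q → q ≤ X → δ / (X : ℝ) ^ (d - 1) < distInt (f.leadingCoeff * q)) →
      AlmostAllGood η W U X f β δ) ∧
    (∀ (f : ℝ[X]) (c τ θ : ℝ), f.natDegree = d → 0 < c → 0 < θ → θ < 1 / (2 : ℝ) ^ (d - 1) → τ < (d - 1 : ℝ) + θ →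
      (∀ q : ℕ, 1 ≤ q → c / (q : ℝ) ^ τ ≤ distInt (f.leadingCoeff * q)) →
      ∃ X₀ : ℕ, ∀ X : ℕ, X₀ ≤ X → ∀ β : ℝ, AlmostAllGood η W U X f β ((X : ℝ) ^ (-θ))) ∧
    (∀ (f : ℝ[X]) (θ : ℝ), f.natDegree = d → Irrational f.leadingCoeff → 0 < θ → θ < 1 / (2 : ℝ) ^ (d - 1) →
      ∀ X₁ : ℕ, ∃ X : ℕ, X₁ ≤ X ∧ ∀ β : ℝ, AlmostAllGood η W U X f β ((X : ℝ) ^ (-θ))) ∧
    (∀ (f : ℝ[X]) (β θ : ℝ), f.natDegree = d → Irrational f.leadingCoeff → 0 < θ → θ < 1 / (2 : ℝ) ^ (d - 1) →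
      {n : ℕ | 2 ∣ n ∧ distInt (f.eval (n : ℝ) - β) < (n : ℝ) ^ (-θ) ∧ Good η W n}.Infinite) := by
  classical
  obtain ⟨e, rfl⟩ : ∃ e, d = e + 1 := ⟨d - 1, by omega⟩
  have he : 1 ≤ e := by omega
  rw [Nat.add_sub_cancel]
  have H1 : ∀ (U : ℕ) (ρ : ℝ), 0 < ρ → ∃ X₀ : ℕ, ∀ X : ℕ, X₀ ≤ X → ∀ f : ℝ[X], f.natDegree = e + 1 → ∀ β δ : ℝ,
      (X : ℝ) ^ (ρ - 1 / (2 : ℝ) ^ e) ≤ δ → δ ≤ 1 / 6 →
      (∀ q : ℕ, 1 ≤ q → q ≤ X → δ / (X : ℝ) ^ e < distInt (f.leadingCoeff * q)) →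
      AlmostAllGood η W U X f β δ := by
    intro U ρ hρ
    obtain ⟨m₀, hm₀⟩ := good_of_win η hη W
    obtain ⟨x₀, h0⟩ := Pool.Agent.H566.nonlinear_even (ρ / 2) (η / 2) (by linarith) (by linarith) (W + 1) U m₀
      (fun n => Good η W n) (fun n hn h2 hw => hm₀ n hn h2 hw)
    obtain ⟨x₁, h1⟩ := Pool.Agent.H566.poly_hyp e he ρ hρ
    refine ⟨x₀ + x₁ + 1, fun X hX f hf β δ hδ hδ1 hα => ?_⟩
    have hX0 : (0 : ℝ) < X := by exact_mod_cast (by omega : 0 < X)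
    have hδ0 : 0 < δ := lt_of_lt_of_le (Real.rpow_pos_of_pos hX0 _) hδ
    have hlc : f.leadingCoeff = f.coeff (e + 1) := by unfold leadingCoeff; rw [hf]
    rw [hlc] at hα
    have h2 := h1 X (by omega) f hf.le δ hδ hδ1 hα
    obtain ⟨h3, h4⟩ := h0 X (by omega) (fun n => f.eval (n : ℝ)) ⌈4 / δ⌉₊ h2 β δ hδ0 hδ1 (Nat.le_ceil _)
    have e1 : (Icc 1 X).filter (fun n : ℕ => 2 ∣ n ∧ Pool.Agent.H566.dist1 (f.eval (n : ℝ) - β) ≤ δ) =
        target X f β δ := rfl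
    have e2 : (Icc 1 X).filter (fun n : ℕ => (2 ∣ n ∧ Pool.Agent.H566.dist1 (f.eval (n : ℝ) - β) ≤ δ) ∧ ¬ Good η W n) =
        (target X f β δ).filter (fun n => ¬ Good η W n) := by
      unfold target
      rw [filter_filter]
      rfl
    rw [e1] at h3 h4
    rw [e2] at h4
    exact ⟨by linarith, h4⟩
  have H3 : ∀ (U : ℕ) (f : ℝ[X]) (θ : ℝ), f.natDegree = e + 1 → Irrational f.leadingCoeff → 0 < θ →
      θ < 1 / (2 : ℝ) ^ e →
      ∀ X₁ : ℕ, ∃ X : ℕ, X₁ ≤ X ∧ ∀ β : ℝ, AlmostAllGood η W U X f β ((X : ℝ) ^ (-θ)) := by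
    intro U f θ hf hirr hθ0 hθ X₁
    obtain ⟨x₀, h0⟩ := H1 U (1 / (2 : ℝ) ^ e - θ) (by linarith)
    obtain ⟨x₂, -, hx₂⟩ := Pool.Agent.H566.log_pow_le' 0 θ hθ0 6
    obtain ⟨N, hN⟩ := exists_nat_gt x₂
    obtain ⟨Q, hNQ, hQ1, hQ⟩ := Pool.Agent.H566.good_denominators f.leadingCoeff hirr (x₀ + X₁ + N + 3)
    refine ⟨Q - 1, by omega, fun β => ?_⟩
    have hXN : (N : ℝ) ≤ ((Q - 1 : ℕ) : ℝ) := by exact_mod_cast (by omega : N ≤ Q - 1)
    have hX3 : (2 : ℝ) ≤ ((Q - 1 : ℕ) : ℝ) := by exact_mod_cast (by omega : 2 ≤ Q - 1)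
    have hX0 : (0 : ℝ) < ((Q - 1 : ℕ) : ℝ) := by linarith
    have g1 := hx₂ ((Q - 1 : ℕ) : ℝ) (by linarith)
    rw [pow_zero, mul_one] at g1
    have hinv : ((Q - 1 : ℕ) : ℝ) ^ (-θ) ≤ 1 / 6 := by
      rw [Real.rpow_neg hX0.le, ← one_div]
      exact one_div_le_one_div_of_le (by norm_num) g1
    refine h0 (Q - 1) (by omega) f hf β _ (le_of_eq (by congr 1; ring)) hinv ?_
    intro q hq1 hqQ
    refine lt_of_lt_of_le ?_ (hQ q hq1 (by omega))
    have hQr : (Q : ℝ) = ((Q - 1 : ℕ) : ℝ) + 1 := by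
      have : Q = (Q - 1) + 1 := by omega
      exact_mod_cast this
    have h1 : ((Q - 1 : ℕ) : ℝ) ≤ ((Q - 1 : ℕ) : ℝ) ^ e := by
      calc ((Q - 1 : ℕ) : ℝ) = ((Q - 1 : ℕ) : ℝ) ^ 1 := (pow_one _).symm
        _ ≤ _ := pow_le_pow_right₀ (by linarith) he
    rw [div_lt_div_iff₀ (by positivity) (by positivity), hQr]
    nlinarith
  refine ⟨H1 U, ?_, H3 U, ?_⟩
  · intro f c τ θ hf hc hθ0 hθ hτ hα
    obtain ⟨x₀, h0⟩ := H1 U (1 / (2 : ℝ) ^ e - θ) (by linarith)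
    obtain ⟨σ, hσ⟩ : ∃ σ : ℝ, σ = (e + θ - max τ 0) / 2 := ⟨_, rfl⟩
    have he' : (0 : ℝ) < e := by exact_mod_cast (by omega : 0 < e)
    have hτ' : τ < e + θ := by push_cast at hτ; linarith
    have hmax : max τ 0 < e + θ := max_lt hτ' (by linarith)
    have hσ0 : 0 < σ := by rw [hσ]; linarith
    obtain ⟨x₁, -, hx₁⟩ := Pool.Agent.H566.log_pow_le' 0 σ hσ0 (2 / c)
    obtain ⟨x₂, -, hx₂⟩ := Pool.Agent.H566.log_pow_le' 0 θ hθ0 6
    obtain ⟨N, hN⟩ := exists_nat_gt (max x₁ x₂)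
    refine ⟨x₀ + N + 1, fun X hX β => ?_⟩
    have hXN : (N : ℝ) ≤ X := by exact_mod_cast (by omega : N ≤ X)
    have hX1 : (1 : ℝ) ≤ X := by exact_mod_cast (by omega : 1 ≤ X)
    have hX0 : (0 : ℝ) < X := by linarith
    have g0 := hx₁ X (((le_max_left _ _).trans hN.le).trans hXN)
    have g1 := hx₂ X (((le_max_right _ _).trans hN.le).trans hXN)
    rw [pow_zero, mul_one] at g0 g1
    have hinv : (X : ℝ) ^ (-θ) ≤ 1 / 6 := by
      rw [Real.rpow_neg hX0.le, ← one_div]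
      exact one_div_le_one_div_of_le (by norm_num) g1
    refine h0 X (by omega) f hf β _ (le_of_eq (by congr 1; ring)) hinv ?_
    intro q hq1 hqX
    refine lt_of_lt_of_le ?_ (hα q hq1)
    have hq1' : (1 : ℝ) ≤ q := by exact_mod_cast hq1
    have hqX' : (q : ℝ) ≤ X := by exact_mod_cast hqX
    have h1 : (q : ℝ) ^ τ ≤ (X : ℝ) ^ (max τ 0) :=
      (Real.rpow_le_rpow_of_exponent_le hq1' (le_max_left _ _)).trans
        (Real.rpow_le_rpow (by linarith) hqX' (le_max_right _ _))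
    rw [div_lt_div_iff₀ (by positivity) (Real.rpow_pos_of_pos (by linarith) _)]
    have h2 : (X : ℝ) ^ (-θ) * (X : ℝ) ^ (max τ 0) < c * (X : ℝ) ^ e := by
      have h3 : (X : ℝ) ^ (-θ) * (X : ℝ) ^ (max τ 0) * (X : ℝ) ^ (2 * σ) = (X : ℝ) ^ e := by
        rw [← Real.rpow_add hX0, ← Real.rpow_add hX0, ← Real.rpow_natCast]
        congr 1
        rw [hσ]; ring
      have h4 : 2 / c ≤ (X : ℝ) ^ (2 * σ) :=
        g0.trans (Real.rpow_le_rpow_of_exponent_le hX1 (by linarith))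
      rw [div_le_iff₀ hc] at h4
      have h5 : 0 < (X : ℝ) ^ (-θ) * (X : ℝ) ^ (max τ 0) :=
        mul_pos (Real.rpow_pos_of_pos hX0 _) (Real.rpow_pos_of_pos hX0 _)
      rw [← h3]
      nlinarith
    exact lt_of_le_of_lt (mul_le_mul_of_nonneg_left h1 (Real.rpow_pos_of_pos hX0 _).le) h2
  · intro f β θ hf hirr hθ0 hθ hfin
    obtain ⟨θ', hθ', hθ''⟩ := exists_between hθ
    obtain ⟨M, hM⟩ : ∃ M : ℝ,
      M = ({n : ℕ | 2 ∣ n ∧ distInt (f.eval (n : ℝ) - β) < (n : ℝ) ^ (-θ) ∧ Good η W n}.ncard : ℝ) := ⟨_, rfl⟩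
    have hM0 : 0 ≤ M := by rw [hM]; exact Nat.cast_nonneg _
    have h2e : 1 / (2 : ℝ) ^ e ≤ 1 := by
      rw [div_le_one (by positivity)]
      exact one_le_pow₀ (by norm_num)
    obtain ⟨x₁, hx₁1, hx₁⟩ := Pool.Agent.H566.log_pow_le' 0 (1 - θ') (by linarith) (102 * M + 102)
    obtain ⟨N, hN⟩ := exists_nat_gt (max x₁ (Real.exp 2))
    obtain ⟨X, hX, h⟩ := H3 1 f θ' hf hirr (by linarith) hθ'' N
    have hXN : (N : ℝ) ≤ X := by exact_mod_cast hX
    have hX1 : x₁ ≤ X := ((le_max_left _ _).trans hN.le).trans hXN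
    have hX2 : Real.exp 2 ≤ X := ((le_max_right _ _).trans hN.le).trans hXN
    have hXe : (1 : ℝ) < X := lt_of_lt_of_le (Real.one_lt_exp_iff.2 (by norm_num)) hX2
    have hXpos : (0 : ℝ) < X := by linarith
    have hlog : 2 ≤ Real.log X := (Real.le_log_iff_exp_le hXpos).2 hX2
    have hg := hx₁ X hX1
    rw [pow_zero, mul_one] at hg
    obtain ⟨hlow, hup⟩ := h β
    have e1 : (X : ℝ) ^ (-θ') * X = (X : ℝ) ^ (1 - θ') := by
      nth_rewrite 2 [← Real.rpow_one (X : ℝ)]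
      rw [← Real.rpow_add hXpos]
      congr 1; ring
    rw [e1] at hlow
    rw [pow_one] at hup
    -- the good members
    have hgood : (((target X f β ((X : ℝ) ^ (-θ'))).filter (fun n => Good η W n)).card : ℝ) ≤ M := by
      rw [hM]
      have hsub : (((target X f β ((X : ℝ) ^ (-θ'))).filter (fun n => Good η W n) : Finset ℕ) : Set ℕ) ⊆
          {n : ℕ | 2 ∣ n ∧ distInt (f.eval (n : ℝ) - β) < (n : ℝ) ^ (-θ) ∧ Good η W n} := by
        intro n hn
        rw [mem_coe, mem_filter] at hn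
        obtain ⟨hn1, hn2⟩ := hn
        unfold target at hn1
        rw [mem_filter, mem_Icc] at hn1
        obtain ⟨⟨h0, h1⟩, h2, h3⟩ := hn1
        refine ⟨h2, lt_of_le_of_lt h3 ?_, hn2⟩
        have hn0 : (0 : ℝ) < n := by exact_mod_cast h0
        calc (X : ℝ) ^ (-θ') < (X : ℝ) ^ (-θ) := Real.rpow_lt_rpow_of_exponent_lt hXe (by linarith)
          _ ≤ (n : ℝ) ^ (-θ) := Real.rpow_le_rpow_of_nonpos hn0 (by exact_mod_cast h1) (by linarith)
      have h1 := Set.ncard_le_ncard hsub hfin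
      rw [Set.ncard_coe_finset] at h1
      exact_mod_cast h1
    have hsplit := card_filter_add_card_filter_not (s := target X f β ((X : ℝ) ^ (-θ'))) (fun n => Good η W n)
    have hsplit' : (((target X f β ((X : ℝ) ^ (-θ'))).filter (fun n => Good η W n)).card : ℝ) +
        (((target X f β ((X : ℝ) ^ (-θ'))).filter (fun n => ¬ Good η W n)).card : ℝ) =
        ((target X f β ((X : ℝ) ^ (-θ'))).card : ℝ) := by exact_mod_cast hsplit
    have hc0 : (0 : ℝ) ≤ ((target X f β ((X : ℝ) ^ (-θ'))).card : ℝ) := Nat.cast_nonneg _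
    have h4 : ((target X f β ((X : ℝ) ^ (-θ'))).card : ℝ) / Real.log X ≤
        ((target X f β ((X : ℝ) ^ (-θ'))).card : ℝ) / 2 := div_le_div_of_nonneg_left hc0 (by norm_num) hlog
    linarith

end Pool.Agent.Results.MP_33f996_nt.PolynomialTargets
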