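import Pool.Agent.H561.E3.K11

/-!
# One prime for several even numbers: `N_1 - p, …, N_k - p` products of exactly two primes

For every `k ≥ 1` and `ε > 0` there is `η > 0` such that for all `A`, `B` the following holds for all large `M` and all `H` with
`exp ((log M) ^ (1 - η)) ≤ H ≤ M` (for instance `H = M ^ θ` with a fixed `θ > 0`). All `k`-tuples of different integers
`N_1, …, N_k ∈ [M, M + H)` without a local obstruction (no prime `q` divides `n (N_1 - n) ⋯ (N_k - n)` for all `n`; in particular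
all the `N_i` are even), except at most `H ^ k / (log M) ^ A`, have the following property. For ALL windows `(U, V]` with
`V < M` and `V - U ≥ M / (log M) ^ B` the number of the primes `p ∈ (U, V]` for which every `N_i - p` is a product of two primes is

`∏_q (1 - 1 / q) ^ (-(k + 1)) (1 - ω(q) / q) * (V - U) * (log log M) ^ k / (log M) ^ (k + 1)`

up to a relative error of at most `ε`. With `V = M / 2` and `U = M / (log M)`, say, the prime `p` lies in the interval
`(√(2 n), n)` for all the `n = N_i / 2`, and all the `N_i` have the partition `N_i = p + (product of two primes)` with the same `p`.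

Proof: `Pool.Agent.H561.E3`.
-/

set_option autoImplicit false

namespace Pool.Agent.Results.MP_33f996_nt.SimultaneousSemiprimes

open Finset Filter

/-- `m` is the product of two primes -/
def Semiprime (m : ℕ) : Prop := ∃ p q : ℕ, p.Prime ∧ q.Prime ∧ m = p * q

open Classical in
/-- the number of the primes `p`, `U < p ≤ V`, such that every `N_i - p` is the product of two primes -/
noncomputable def count {k : ℕ} (N : Fin k → ℕ) (U V : ℕ) : ℕ :=
  ((Ioc U V).filter (fun p : ℕ => p.Prime ∧ ∀ i, Semiprime (N i - p))).card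

open Classical in
/-- the number of the `n` modulo `q` with `n (N_1 - n) ⋯ (N_k - n) ≡ 0` -/
noncomputable def ω {k : ℕ} (N : Fin k → ℕ) (q : ℕ) : ℕ :=
  ((range q).filter (fun n : ℕ => (q : ℤ) ∣ (n : ℤ) * ∏ i, ((N i : ℤ) - n))).card

/-- the singular series -/
noncomputable def singularSeries {k : ℕ} (N : Fin k → ℕ) : ℝ :=
  ∏' q : Nat.Primes, (1 - 1 / ((q : ℕ) : ℝ))⁻¹ ^ (k + 1) * (1 - (ω N q : ℝ) / ((q : ℕ) : ℝ))

/-- the expected number -/
noncomputable def expected {k : ℕ} (N : Fin k → ℕ) (M U V : ℕ) : ℝ :=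
  singularSeries N * ((V : ℝ) - U) * Real.log (Real.log M) ^ k / Real.log M ^ (k + 1)

/-- the `N_i` are different, and no prime divides `n (N_1 - n) ⋯ (N_k - n)` for all `n` -/
def Admissible {k : ℕ} (N : Fin k → ℕ) : Prop :=
  Function.Injective N ∧ ∀ q : ℕ, q.Prime → ∃ n : ℕ, ¬ (q : ℤ) ∣ (n : ℤ) * ∏ i, ((N i : ℤ) - n)

open Classical in
/-- the admissible tuples of integers of `[M, M + H)` for which the formula fails, up to a relative error of at most `ε`, for some
window `(U, V]` with `V < M` and `V - U ≥ M / (log M) ^ B` -/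
noncomputable def exceptional {k : ℕ} (ε : ℝ) (B M H : ℕ) : Finset (Fin k → ℕ) :=
  (Fintype.piFinset (fun _ : Fin k => Ico M (M + H))).filter
    (fun N => Admissible N ∧ ¬ ∀ U V : ℕ, V < M → M / Real.log M ^ B ≤ (V : ℝ) - U →
      |(count N U V : ℝ) - expected N M U V| ≤ ε * expected N M U V)

/-- the shifts -/
def sh {k : ℕ} (N : Fin k → ℕ) (i : Fin k) : ℤ := N i

lemma sh_inj {k : ℕ} : Function.Injective (sh : (Fin k → ℕ) → (Fin k → ℤ)) := by
  intro d e h
  funext i
  have h1 : ((d i : ℕ) : ℤ) = e i := congrFun h i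
  exact_mod_cast h1

lemma ω_eq {k : ℕ} (N : Fin k → ℕ) (q : ℕ) : ω N q = Pool.Agent.H561.E2.omg (fun _ => -1) (sh N) q := by
  classical
  unfold ω Pool.Agent.H561.E2.omg
  congr 1
  ext n
  have h1 : ∏ i, ((N i : ℤ) - n) = ∏ i, ((-1 : ℤ) * n + sh N i) := by
    apply prod_congr rfl
    intro i _
    unfold sh
    ring
  simp only [mem_filter, h1]

lemma ser_eq {k : ℕ} (N : Fin k → ℕ) : singularSeries N = Pool.Agent.H561.E2.singT (fun _ => -1) (sh N) := by
  rw [← Pool.Agent.H561.E2.singD_eq]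
  unfold singularSeries Pool.Agent.H561.E2.singD
  apply tprod_congr
  intro q
  rw [ω_eq]

lemma omg_lt {s : ℕ} (a b : Fin s → ℤ) (p : ℕ) (hp : p.Prime) (h : ∃ n : ℕ, ¬ (p : ℤ) ∣ (n : ℤ) * ∏ i, (a i * (n : ℤ) + b i)) :
    Pool.Agent.H561.E2.omg a b p < p := by
  classical
  obtain ⟨n, hn⟩ := h
  have h1 : ¬ (p : ℤ) ∣ ((n % p : ℕ) : ℤ) * ∏ i, (a i * ((n % p : ℕ) : ℤ) + b i) := by
    intro h2
    apply hn
    have h3 : (n : ℤ) ≡ ((n % p : ℕ) : ℤ) [ZMOD p] := by
      rw [Int.natCast_mod]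
      exact (Int.mod_modEq _ _).symm
    have h4 : (n : ℤ) * ∏ i, (a i * (n : ℤ) + b i) ≡ ((n % p : ℕ) : ℤ) * ∏ i, (a i * ((n % p : ℕ) : ℤ) + b i) [ZMOD p] := by
      apply Int.ModEq.mul h3
      have h5 : ∀ T : Finset (Fin s), ∏ i ∈ T, (a i * (n : ℤ) + b i) ≡ ∏ i ∈ T, (a i * ((n % p : ℕ) : ℤ) + b i) [ZMOD p] := by
        intro T
        induction T using Finset.induction_on with
        | empty => simp
        | insert x T hx ih =>
          rw [prod_insert hx, prod_insert hx]
          exact Int.ModEq.mul ((h3.mul_left _).add_right _) ih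
      exact h5 univ
    exact (Int.ModEq.dvd_iff h4).2 h2
  have h2 : (range p).filter (fun n : ℕ => (p : ℤ) ∣ (n : ℤ) * ∏ i, (a i * (n : ℤ) + b i)) ⊂ range p := by
    rw [Finset.ssubset_iff_of_subset (filter_subset _ _)]
    refine ⟨n % p, mem_range.2 (Nat.mod_lt _ hp.pos), fun h3 => ?_⟩
    rw [mem_filter] at h3
    exact h1 h3.2
  have h3 := card_lt_card h2
  rw [card_range] at h3
  unfold Pool.Agent.H561.E2.omg
  convert h3

lemma adm_of {k : ℕ} (N : Fin k → ℕ) (hN : Admissible N) (h0 : ∀ i, 0 < N i) :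
    Pool.Agent.H561.E2.NDeg (fun _ => -1) (sh N) ∧ Pool.Agent.H561.E2.Adm (fun _ => -1) (sh N) := by
  refine ⟨⟨fun i h1 => ?_, fun i j hij h1 => ?_⟩, ?_⟩
  · unfold sh at h1
    have := h0 i
    omega
  · unfold Pool.Agent.H561.E2.DD sh at h1
    apply hij
    apply hN.1
    have h2 : ((N i : ℕ) : ℤ) = N j := by linarith
    exact_mod_cast h2
  · rw [Pool.Agent.H561.E2.adm_iff]
    intro q hq
    apply omg_lt _ _ q hq
    obtain ⟨n, hn⟩ := hN.2 q hq
    refine ⟨n, ?_⟩
    have h1 : ∏ i, ((N i : ℤ) - n) = ∏ i, ((-1 : ℤ) * n + sh N i) := by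
      apply prod_congr rfl
      intro i _
      unfold sh
      ring
    rw [← h1]
    exact hn

lemma cnt_eq {k : ℕ} (N : Fin k → ℕ) (U V : ℕ) (hV : ∀ i, V ≤ N i) :
    count N U V = Pool.Agent.H561.E3.CE (fun _ => -1) (sh N) U V := by
  classical
  unfold count Pool.Agent.H561.E3.CE
  congr 1
  ext n
  simp only [mem_filter, mem_Ioc]
  apply and_congr_right
  intro h1
  apply and_congr_right
  intro _
  apply forall_congr'
  intro i
  unfold Semiprime Pool.Agent.H561.E2.LFo sh
  have h2 : n ≤ N i := h1.2.trans (hV i)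
  have h3 : (-1 : ℤ) * n + N i = ((N i - n : ℕ) : ℤ) := by
    rw [Nat.cast_sub h2]
    ring
  rw [h3]
  apply exists_congr
  intro p
  apply exists_congr
  intro q
  apply and_congr_right
  intro _
  apply and_congr_right
  intro _
  constructor
  · intro h
    rw [h]
    push_cast
    rfl
  · intro h
    exact_mod_cast h

/-- **One prime for `k` even numbers of a short interval: `N_i - p` products of two primes, for almost all tuples and all windows
for `p` at once.** -/
theorem result (k : ℕ) (hk : 0 < k) (ε : ℝ) (hε : 0 < ε) : ∃ η : ℝ, 0 < η ∧ ∀ A B : ℕ, ∃ M₀ : ℕ, ∀ M : ℕ, M₀ ≤ M →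
    ∀ H : ℕ, Real.exp (Real.log M ^ (1 - η)) ≤ H → H ≤ M →
      ((exceptional (k := k) ε B M H).card : ℝ) ≤ (H : ℝ) ^ k / Real.log M ^ A := by
  classical
  obtain ⟨δ, hδ⟩ : ∃ δ : ℝ, δ = min (ε / 4) (1 / 4) := ⟨_, rfl⟩
  have hδ0 : 0 < δ := by rw [hδ]; positivity
  have hδ1 : δ ≤ ε / 4 := by rw [hδ]; exact min_le_left _ _
  have hδ2 : δ ≤ 1 / 4 := by rw [hδ]; exact min_le_right _ _
  have hc0 : ∀ i : Fin k, (fun _ : Fin k => (-1 : ℤ)) i ≠ 0 := fun _ => by norm_num
  obtain ⟨η, hη0, hη1, hT⟩ := Pool.Agent.H561.E3.e2U k hk (fun _ => -1) hc0 δ hδ0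
  obtain ⟨κ, hκ, hsl⟩ := Pool.Agent.H561.E2.sing_lower (fun _ : Fin k => (-1 : ℤ)) hc0
  obtain ⟨T, hT3, hlogs⟩ := Pool.Agent.H561.E3.logsK k 1 δ one_pos hδ0
  refine ⟨η / 2, by positivity, fun A B => ?_⟩
  obtain ⟨X₀, hT⟩ := hT A (B + 1)
  have hlogt : Tendsto (fun X : ℕ => Real.log (X : ℝ)) atTop atTop := Real.tendsto_log_atTop.comp tendsto_natCast_atTop_atTop
  have hpow2 : ∀ᶠ x : ℝ in atTop, (2 : ℝ) ≤ x ^ (η / 2) := (tendsto_rpow_atTop (show 0 < η / 2 by positivity)).eventually (eventually_ge_atTop 2)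
  obtain ⟨M₁, hM₁⟩ := Filter.eventually_atTop.1 ((hlogt.eventually (eventually_ge_atTop (T + 3))).and (hlogt.eventually hpow2))
  refine ⟨max (max M₁ X₀) 3, fun M hM H hH hHM => ?_⟩
  obtain ⟨hL, hL2⟩ := hM₁ M (((le_max_left _ _).trans (le_max_left _ _)).trans hM)
  have hMX : X₀ ≤ M := ((le_max_right _ _).trans (le_max_left _ _)).trans hM
  have hM3 : 3 ≤ M := (le_max_right _ _).trans hM
  have hMr : (3 : ℝ) ≤ M := by exact_mod_cast hM3
  obtain ⟨s, hs⟩ : ∃ s, s = Real.log (M : ℝ) := ⟨_, rfl⟩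
  obtain ⟨t, ht⟩ : ∃ t, t = Real.log ((2 * M : ℕ) : ℝ) := ⟨_, rfl⟩
  rw [← hs] at hL hL2 hH ⊢
  have hs3 : 3 ≤ s := by linarith
  have hs0 : 0 < s := by linarith
  have hts : t = Real.log 2 + s := by
    rw [ht, hs]
    push_cast
    rw [Real.log_mul (by norm_num) (by positivity)]
  have hlog2 : 0 < Real.log 2 := Real.log_pos (by norm_num)
  have hlog21 : Real.log 2 ≤ 1 := by
    have := Real.log_two_lt_d9
    linarith
  have hst : s ≤ t := by linarith
  have hts1 : t ≤ s + 1 := by linarith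
  have ht0 : 0 < t := by linarith
  obtain ⟨l1, l2⟩ := hlogs s t (by linarith) hst hts1
  have hexp : Real.exp (t ^ (1 - η)) ≤ H := by
    refine le_trans (Real.exp_le_exp.2 ?_) hH
    calc t ^ (1 - η) ≤ (2 * s) ^ (1 - η) := Real.rpow_le_rpow ht0.le (by linarith) (by linarith)
      _ = 2 ^ (1 - η) * s ^ (1 - η) := Real.mul_rpow (by norm_num) hs0.le
      _ ≤ 2 * s ^ (1 - η) := by
          apply mul_le_mul_of_nonneg_right _ (by positivity)
          calc (2 : ℝ) ^ (1 - η) ≤ 2 ^ (1 : ℝ) := Real.rpow_le_rpow_of_exponent_le (by norm_num) (by linarith)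
            _ = 2 := Real.rpow_one _
      _ ≤ s ^ (η / 2) * s ^ (1 - η) := mul_le_mul_of_nonneg_right hL2 (by positivity)
      _ = s ^ (1 - η / 2) := by
          rw [← Real.rpow_add hs0]
          congr 1
          ring
  have hmain := hT (2 * M) (by omega) 0 (M - 1) (by omega) (fun _ => (M : ℤ)) H (by rw [← ht]; exact hexp) (by
    intro i n hn
    rw [mem_Ioc] at hn
    have h1 : (n : ℤ) + 1 ≤ M := by
      have : n + 1 ≤ M := by omega
      exact_mod_cast this
    have h2 : (0 : ℤ) ≤ n := Int.natCast_nonneg _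
    have h3 : (H : ℤ) ≤ M := by exact_mod_cast hHM
    push_cast
    constructor
    · linarith
    · linarith)
  rw [← ht] at hmain
  refine le_trans ?_ (hmain.trans ?_)
  · have hinj : (exceptional (k := k) ε B M H).card ≤
        ((Fintype.piFinset (fun i : Fin k => Ico ((fun _ : Fin k => (M : ℤ)) i) ((fun _ : Fin k => (M : ℤ)) i + H))).filter (fun h =>
        Pool.Agent.H561.E2.NDeg (fun _ => -1) h ∧ Pool.Agent.H561.E2.Adm (fun _ => -1) h ∧
        ¬ ∀ M₁ M₂ : ℕ, 0 ≤ M₁ → M₂ ≤ M - 1 → ((2 * M : ℕ) : ℝ) / t ^ (B + 1) ≤ (M₂ : ℝ) - M₁ →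
          |(Pool.Agent.H561.E3.CE (fun _ => -1) h M₁ M₂ : ℝ) - Pool.Agent.H561.E3.ME (fun _ => -1) h (2 * M) M₁ M₂| ≤
            δ * Pool.Agent.H561.E3.ME (fun _ => -1) h (2 * M) M₁ M₂)).card := by
      apply card_le_card_of_injOn sh _ sh_inj.injOn
      intro N hN
      have hN' : N ∈ exceptional (k := k) ε B M H := hN
      unfold exceptional at hN'
      rw [mem_filter, Fintype.mem_piFinset] at hN'
      obtain ⟨h1, h2, h3⟩ := hN'
      have hNM : ∀ i, M ≤ N i ∧ N i < M + H := by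
        intro i
        have := h1 i
        rw [mem_Ico] at this
        exact this
      have hadm := adm_of N h2 (fun i => by have := (hNM i).1; omega)
      rw [mem_coe, mem_filter, Fintype.mem_piFinset]
      refine ⟨fun i => ?_, hadm.1, hadm.2, fun h4 => h3 fun U V hV hUV => ?_⟩
      · rw [mem_Ico]
        unfold sh
        have h5 : (M : ℤ) ≤ N i := by exact_mod_cast (hNM i).1
        have h6 : (N i : ℤ) < M + H := by exact_mod_cast (hNM i).2
        exact ⟨h5, h6⟩
      · rw [← hs] at hUV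
        have hlen : ((2 * M : ℕ) : ℝ) / t ^ (B + 1) ≤ (V : ℝ) - U := by
          refine le_trans ?_ hUV
          rw [div_le_div_iff₀ (by positivity) (by positivity)]
          push_cast
          have e1 : s ^ B ≤ t ^ B := pow_le_pow_left₀ hs0.le hst _
          have e2 : 2 * s ^ B ≤ t * t ^ B := by
            apply mul_le_mul (by linarith) e1 (by positivity) ht0.le
          calc 2 * (M : ℝ) * s ^ B = M * (2 * s ^ B) := by ring
            _ ≤ M * (t * t ^ B) := mul_le_mul_of_nonneg_left e2 (by positivity)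
            _ = M * t ^ (B + 1) := by ring
        have h5 := h4 U V (Nat.zero_le _) (by omega) hlen
        rw [cnt_eq N U V (fun i => by have := (hNM i).1; omega)]
        obtain ⟨𝔖, h𝔖⟩ : ∃ 𝔖, 𝔖 = Pool.Agent.H561.E2.singT (fun _ => -1) (sh N) := ⟨_, rfl⟩
        have hSκ : κ ≤ 𝔖 := by
          rw [h𝔖]
          exact hsl _ (Pool.Agent.H561.E3.mult_all (fun _ => -1) (sh N) hc0 hadm.1) hadm.2
        obtain ⟨fs, hfs⟩ : ∃ fs, fs = Real.log s ^ k / s ^ (k + 1) := ⟨_, rfl⟩
        obtain ⟨ft, hft⟩ : ∃ ft, ft = Real.log t ^ k / t ^ (k + 1) := ⟨_, rfl⟩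
        rw [← hfs, ← hft] at l1 l2
        have hls0 : 0 ≤ Real.log s := Real.log_nonneg (by linarith)
        have hfs0 : 0 ≤ fs := by rw [hfs]; positivity
        have hVU : 0 ≤ (V : ℝ) - U := le_trans (by positivity) hUV
        obtain ⟨Q, hQ⟩ : ∃ Q, Q = 𝔖 * ((V : ℝ) - U) * fs := ⟨_, rfl⟩
        obtain ⟨P, hP⟩ : ∃ P, P = 𝔖 * ((V : ℝ) - U) * ft := ⟨_, rfl⟩
        have h𝔖U : 0 ≤ 𝔖 * ((V : ℝ) - U) := mul_nonneg (by linarith) hVU
        have hQ0 : 0 ≤ Q := by rw [hQ]; exact mul_nonneg h𝔖U hfs0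
        have e1 : expected N M U V = Q := by
          unfold expected
          rw [ser_eq, ← h𝔖, hQ, hfs, ← hs]
          ring
        have e2 : Pool.Agent.H561.E3.ME (fun _ => -1) (sh N) (2 * M) U V = P := by
          unfold Pool.Agent.H561.E3.ME
          rw [← ht, ← h𝔖, hP, hft]
          ring
        rw [e2] at h5
        rw [e1]
        have q1 : (1 - δ) * Q ≤ P := by
          rw [hQ, hP]
          have := mul_le_mul_of_nonneg_left l1 h𝔖U
          linarith
        have q2 : P ≤ (1 + δ) * Q := by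
          rw [hQ, hP]
          have := mul_le_mul_of_nonneg_left l2 h𝔖U
          linarith
        obtain ⟨g1, g2⟩ := abs_le.1 h5
        have q3 : δ * P ≤ δ * ((1 + δ) * Q) := mul_le_mul_of_nonneg_left q2 hδ0.le
        have q4 : δ * ((1 + δ) * Q) ≤ 2 * (δ * Q) := by
          have h6 : δ * ((1 + δ) * Q) = δ * Q + δ * (δ * Q) := by ring
          have h7 : δ * (δ * Q) ≤ 1 * (δ * Q) := mul_le_mul_of_nonneg_right (by linarith) (mul_nonneg hδ0.le hQ0)
          linarith
        have q5 : 4 * (δ * Q) ≤ ε * Q := by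
          have := mul_le_mul_of_nonneg_right (show 4 * δ ≤ ε by linarith) hQ0
          linarith
        have q6 : 0 ≤ δ * Q := mul_nonneg hδ0.le hQ0
        rw [abs_le]
        constructor <;> linarith
    exact_mod_cast hinj
  · apply div_le_div_of_nonneg_left (by positivity) (by positivity)
    exact pow_le_pow_left₀ hs0.le hst _

end Pool.Agent.Results.MP_33f996_nt.SimultaneousSemiprimes
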