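import Pool.Agent.H567.PP.Hard4

/-!
# Goldbach partitions of `2 n` with a prime in EVERY window `(U, V]` at all scales, for the residue classes of EVERY modulus

There is a set `D` of at most `(log x)^c` integers, whose radicals are all larger than any given power of `log x`,
such that the following holds for EVERY modulus `q` and every residue class `a` modulo `q` for which `gcd(a, q)` is not
divisible by a member of `D`. These are

* all classes `a` with `rad (gcd (a, q)) ≤ (log x)^B`, in particular all classes with `gcd (a, q) ≤ (log x)^B`, for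
  EVERY modulus `q`, and ALL classes, for instance the multiples of `q`, for every modulus `q` with
  `rad q ≤ (log x)^B` (such as `q = 10 ^ k`: prescribed last digits);
* all but at most `q / (log x)^B` of the `q` residue classes, for EVERY modulus `q`;
* ALL classes of every modulus which is not divisible by a member of `D`.

(1) All but at most `x / (q (log x)^A)` of the integers `n ≤ x`, `n ≡ a (mod q)`, have the following property: in EVERY
window `(U, V]` with `q n ^ (1 / 3 + ρ) ≤ V < n` and `V - U ≥ V / (log n)^W` the number of the primes `p` for which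
`2 n - p` is a prime is the one predicted by Hardy and Littlewood, up to the factor `1 ± ε`.

For `q ≤ x ^ (1 / 6 - 2 ρ)` this holds for the windows `(U, V]` of this relative length in the whole range
`√(2 n) ≤ U < V < n` of the question: for instance the prime `p` can be chosen between `√(2 n)` and
`√(2 n) (1 + 1 / (log n)^W)`.

(2) If `q ≤ x ^ (4 / 5 - ρ)`, then for all but at most `x / (q (log x)^A)` of these integers the number of these primes
in every window `(U, V]` in `[0, n]` with `V - U ≥ n / (log n)^W` is at least one eighth of the predicted number.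

The windows in the starting library have a length of at least `n / (log n)^W`, and the classes there are those with
`gcd(a, q) ≤ (log x)^T`, or all classes of the moduli which are not divisible by members of a set of large integers
(nothing for a given modulus with large prime powers, like `10 ^ k`, and a class like `0`).

Definition used (in `Pool.Agent.H560R3.GB`): `sing m = 2 C₂ ∏_{p ∣ m, p > 2} (p - 1) / (p - 2)`, the singular series,
where `C₂ = ∏_{p > 2} (1 - 1 / (p - 1) ^ 2)` is the twin prime constant.

Proof: `H567/HW`, `H567/PP` (`PP/Hard3`, `PP/Hard4`); a sketch is in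
`Results/MP_dd84fd_nt/EveryModulusEveryClass.lean`.
-/

set_option autoImplicit false

namespace Pool.Agent.Results.MP_33f996_nt.WindowsEveryClass

open Finset
open Pool.Agent.H560R3.GB (sing)

/-- The radical: the product of the prime factors. -/
def rad (n : ℕ) : ℕ := ∏ p ∈ n.primeFactors, p

/-- The number of the primes `p` with `U < p ≤ V` for which `2 n - p` is a prime. -/
def count (n U V : ℕ) : ℕ := ((Ioc U V).filter (fun p => p.Prime ∧ (2 * n - p).Prime)).card

/-- In every window `(U, V]` with `q n ^ (1 / 3 + ρ) ≤ V < n` and `V - U ≥ V / (log n)^W` the number of the primes `p` with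
`2 n - p` prime is `sing (2 n) * (V - U) / (log V log (2 n))` with a relative error of at most `ε`. -/
def Formula (ε ρ : ℝ) (W q n : ℕ) : Prop :=
  ∀ U V : ℕ, U ≤ V → (q : ℝ) * (n : ℝ) ^ (1 / 3 + ρ) ≤ V → V < n → (V : ℝ) / Real.log n ^ W ≤ (V : ℝ) - U →
    |(count n U V : ℝ) - sing (2 * n) * (((V : ℝ) - U) / (Real.log V * Real.log (2 * n)))| ≤
      ε * (sing (2 * n) * (((V : ℝ) - U) / (Real.log V * Real.log (2 * n))))

/-- In every window `(U, V]` in `[0, n]` with `V - U ≥ n / (log n)^W` the number of the primes `p` with `2 n - p` prime is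
at least one eighth of `sing (2 n) * (V - U) / (log (2 n))²`. -/
def Lower (W n : ℕ) : Prop :=
  ∀ U V : ℕ, U < V → V ≤ n → (n : ℝ) / Real.log n ^ W ≤ (V : ℝ) - U →
    1 / 8 * (sing (2 * n) * (((V : ℝ) - U) / Real.log (2 * n) ^ 2)) ≤ count n U V

/-- The integers `0 < n ≤ x` with `n ≡ a (mod q)` for which `F n` is false. -/
def exceptional (F : ℕ → Prop) (x : ℝ) (q : ℕ) (a : ℤ) : Set ℕ :=
  {n : ℕ | 0 < n ∧ (n : ℝ) ≤ x ∧ (n : ℤ) ≡ a [ZMOD q] ∧ ¬ F n}

/-- The class `a` modulo `q` is excluded by `D`: a member of `D` divides `a` and `q`. -/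
def Excluded (D : Finset ℕ) (q : ℕ) (a : ℤ) : Prop := ∃ d ∈ D, d ∣ Int.gcd a q

open Classical in
/-- For all `ρ, ε > 0`, `W` and `A` there is `c` such that for all `B` and all sufficiently large real `x` there is a
finite set `D` of at most `(log x) ^ c` integers, whose radicals are larger than `(log x) ^ B`, with the following
properties, for EVERY integer `q ≥ 1`. (a) A class `a` modulo `q` with `rad (gcd (a, q)) ≤ (log x)^B` is not excluded
by `D`; (b) at most `q / (log x)^B` of the classes modulo `q` are excluded by `D`; (c) for every integer `a` which is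
not excluded by `D` (modulo `q`): all but at most `x / (q (log x)^A)` of the integers `0 < n ≤ x`, `n ≡ a (mod q)`,
satisfy `Formula ε ρ W q n`; if `q ≤ x ^ (4 / 5 - ρ)`, then all but at most `x / (q (log x)^A)` of them satisfy
`Lower W n`. -/
theorem result (ρ ε : ℝ) (hρ : 0 < ρ) (hε : 0 < ε) (W A : ℕ) :
    ∃ c : ℕ, ∀ B : ℕ, ∃ x₀ : ℝ, ∀ x : ℝ, x₀ ≤ x →
    ∃ D : Finset ℕ, (D.card : ℝ) ≤ Real.log x ^ c ∧ (∀ d ∈ D, Real.log x ^ B < (rad d : ℝ)) ∧
    ∀ q : ℕ, 1 ≤ q →
      (∀ a : ℤ, (rad (Int.gcd a q) : ℝ) ≤ Real.log x ^ B → ¬ Excluded D q a) ∧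
      (((range q).filter (fun a : ℕ => Excluded D q a)).card : ℝ) ≤ q / Real.log x ^ B ∧
      ∀ a : ℤ, ¬ Excluded D q a →
        ((exceptional (Formula ε ρ W q) x q a).Finite ∧
          ((exceptional (Formula ε ρ W q) x q a).ncard : ℝ) ≤ x / (q * Real.log x ^ A)) ∧
        ((q : ℝ) ≤ x ^ (4 / 5 - ρ) → (exceptional (Lower W) x q a).Finite ∧
          ((exceptional (Lower W) x q a).ncard : ℝ) ≤ x / (q * Real.log x ^ A)) :=
  Pool.Agent.H567.PP.base_final
    (Pool.Agent.H567.PP.base_and (Pool.Agent.H567.PP.f33_base hρ hε W A) (Pool.Agent.H567.PP.lowT_base hρ W A))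

end Pool.Agent.Results.MP_33f996_nt.WindowsEveryClass
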